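import Pool.Agent.Helper19.HV.Curve
import Pool.Agent.Helper91.PL.A1
import Pool.Agent.Helper91.PL.A4
import Pool.Agent.Helper91.PL.A5
import Pool.Agent.Helper91.PL.A6
import Pool.Agent.Helper91.PL.A7

/-!
# Project HV (MP_bae8ce_ag), module FUN: functoriality of `R` and `AA`
-/

set_option autoImplicit false

open Polynomial

open scoped TensorProduct

namespace Pool.Agent.Helper19.HV

noncomputable section

open PL

/-- Functoriality of the generators. -/
private theorem fun_Rgen {F G : Type} [Field F] [Field G] (σ : F →+* G)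
    (A : ∀ (K : Type) [Field K], Submodule ℚ (ZP K))
    (hA : ∀ {K L : Type} [Field K] [Field L] (τ : K →+* L) (γ : ZP K),
      γ ∈ A K → mapP τ γ ∈ A L)
    {α : ZP F} (h : α ∈ Rgen F (A (RatFunc F))) : mapP σ α ∈ Rgen G (A (RatFunc G)) := by
  obtain ⟨τ, h0, h1⟩ := exists_base σ
  have h2 : Rgen F (A (RatFunc F)) ≤ (Rgen G (A (RatFunc G))).comap (mapP σ) := by
    refine sup_le (Submodule.span_le.2 ?_) (Submodule.map_le_iff_le_comap.2 ?_)
    · rintro x (rfl | rfl)
      · rw [SetLike.mem_coe, Submodule.mem_comap, a7_mapP_single, Option.map_some, map_zero]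
        exact a7_zero_mem _
      · rw [SetLike.mem_coe, Submodule.mem_comap, a7_mapP_single, Option.map_none]
        exact a7_none_mem _
    · intro γ hγ
      rw [Submodule.mem_comap, Submodule.mem_comap, LinearMap.sub_apply]
      have h3 := a7_sub_mem (hA τ γ hγ)
      have h4 : ∀ (a : F) (b : G), (∀ f, val b (some (τ f)) =
          Option.map σ (val a (some f))) → spec b (mapP τ γ) = mapP σ (spec a γ) := by
        intro a b hab
        have h5 : (spec b ∘ₗ mapP τ : ZP (RatFunc F) →ₗ[ℚ] ZP G) = mapP σ ∘ₗ spec a := by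
          apply Finsupp.lhom_ext
          intro x r
          rw [LinearMap.comp_apply, LinearMap.comp_apply, a7_mapP_single, a7_spec_single,
            a7_spec_single, a7_mapP_single]
          congr 1
          rcases x with _ | f
          · rfl
          · exact hab f
        exact LinearMap.congr_fun h5 γ
      rw [map_sub, ← h4 0 0 h0, ← h4 1 1 h1]
      exact h3
  exact h2 h

private theorem fun_R_eq (k : ℕ) (F : Type) [Field F] :
    R (k + 2) F = Rgen F (AA (k + 2) (RatFunc F)) := by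
  cases k <;> rfl

private theorem fun_cl {F G : Type} [Field F] [Field G] (σ : F →+* G)
    {L : V F →ₗ[ℚ] V G} (hL : ∀ x, L (lg x) = lg (σ x)) (x : P1 F) :
    L (cl x) = cl (Option.map σ x) := by
  rcases x with _ | x
  · exact map_zero L
  · exact hL x

/-- The kernels of `δ` for functorial submodules. -/
private theorem fun_ker {F G : Type} [Field F] [Field G] (σ : F →+* G)
    (S : Submodule ℚ (ZP F)) (S' : Submodule ℚ (ZP G))
    (hS : ∀ γ ∈ S, mapP σ γ ∈ S') {α : ZP F} (h : α ∈ LinearMap.ker (δ S)) :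
    mapP σ α ∈ LinearMap.ker (δ S') := by
  obtain ⟨L, hL⟩ := exists_map σ
  have hle : S ≤ S'.comap (mapP σ) := fun γ hγ => hS γ hγ
  let T : QV F S →ₗ[ℚ] QV G S' := TensorProduct.map (S.mapQ S' (mapP σ) hle) L
  have h1 : (δ S' ∘ₗ mapP σ : ZP F →ₗ[ℚ] QV G S') = T ∘ₗ δ S := by
    apply Finsupp.lhom_ext
    intro x r
    rw [LinearMap.comp_apply, LinearMap.comp_apply, a7_mapP_single]
    unfold δ
    rw [Finsupp.linearCombination_single, Finsupp.linearCombination_single, map_smul]
    congr 1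
    show _ = TensorProduct.map (S.mapQ S' (mapP σ) hle) L
      (S.mkQ (Finsupp.single x 1) ⊗ₜ[ℚ] cl x)
    have h6 : S.mapQ S' (mapP σ) hle (S.mkQ (Finsupp.single x 1)) =
        S'.mkQ (Finsupp.single (Option.map σ x) 1) := by
      rw [Submodule.mkQ_apply, Submodule.mapQ_apply, a7_mapP_single]
      rfl
    rw [TensorProduct.map_tmul, fun_cl σ hL, h6]
  rw [LinearMap.mem_ker] at h ⊢
  have h2 := LinearMap.congr_fun h1 α
  rw [LinearMap.comp_apply, LinearMap.comp_apply, h, map_zero] at h2
  exact h2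

private theorem fun_AA (k : ℕ) : ∀ {F G : Type} [Field F] [Field G] (σ : F →+* G) (α : ZP F),
    α ∈ AA (k + 2) F → mapP σ α ∈ AA (k + 2) G := by
  induction k with
  | zero =>
    intro F G _ _ σ α h
    show mapP σ α ∈ LinearMap.ker (δ2 G)
    have h' : α ∈ LinearMap.ker (δ2 F) := h
    rw [ker_δ2] at h' ⊢
    exact NN_map 0 σ h'
  | succ k ih =>
    intro F G _ _ σ α h
    refine fun_ker σ (R (k + 2) F) (R (k + 2) G) ?_ h
    intro γ hγ
    rw [fun_R_eq] at hγ ⊢
    exact fun_Rgen σ (fun K _ => AA (k + 2) K) (fun τ γ => ih τ γ) hγ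

/-- FUN.  Functoriality of `R` and `AA`. -/
theorem mFUN (k : ℕ) : ∀ {F G : Type} [Field F] [Field G] (σ : F →+* G) (α : ZP F),
    (α ∈ AA (k + 2) F → mapP σ α ∈ AA (k + 2) G) ∧
      (α ∈ R (k + 2) F → mapP σ α ∈ R (k + 2) G) := by
  intro F G _ _ σ α
  refine ⟨fun_AA k σ α, fun h => ?_⟩
  rw [fun_R_eq] at h ⊢
  exact fun_Rgen σ (fun K _ => AA (k + 2) K) (fun τ γ => fun_AA k τ γ) h

end

end Pool.Agent.Helper19.HV
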