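import Pool.Agent.Helper19.HV.XS

/-!
# Project HV (MP_bae8ce_ag), module PHI
-/

set_option autoImplicit false

namespace Pool.Agent.Helper19.HV

noncomputable section

open PL

/-- PHI. -/
theorem mPHI {F : Type} [Field F] {Ψ : P1 (RatFunc F) → (V (RatFunc F) →ₗ[ℚ] ℚ)} {M φ : F4 F}
    (hM : Fm Ψ M) (h3 : ∀ w a b, 3 * φ w a a b = M w a a b + M w a b a + M w b a a) :
    Fml φ Ψ := by
  intro a b p hab hpa hpb
  have hc : (p - b) / (p - a) ≠ 0 := div_ne_zero (sub_ne_zero.2 hpb) (sub_ne_zero.2 hpa)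
  have e1 : ∀ k, Ψ (x1 a p) k = M (E p) (E a) (E a) k := by
    intro k
    rw [hM.eq, cl1_x1 hpa, cl_x1 hpa]
    simp only [map_sub, LinearMap.sub_apply]
    have h1 := fun v w z => hM.cv.c1 (p - a) v w z
    have h2 := fun v w z => hM.cv.c2 (p - a) v w z
    have h3 := fun v w z => hM.cv.c3 (p - a) v w z
    simp only [map_sub] at h1 h2 h3
    simp only [h1, h2, h3]
    ring
  have e2 : ∀ k, Ψ (x1 b p) k = M (E p) (E b) (E b) k := by
    intro k
    rw [hM.eq, cl1_x1 hpb, cl_x1 hpb]
    simp only [map_sub, LinearMap.sub_apply]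
    have h1 := fun v w z => hM.cv.c1 (p - b) v w z
    have h2 := fun v w z => hM.cv.c2 (p - b) v w z
    have h3 := fun v w z => hM.cv.c3 (p - b) v w z
    simp only [map_sub] at h1 h2 h3
    simp only [h1, h2, h3]
    ring
  have d1 : ∀ (c : F) (v w z k : V (RatFunc F)),
      M (lg (RatFunc.C c) + v) w z k = M v w z k := by
    intro c v w z k
    rw [map_add, LinearMap.add_apply, LinearMap.add_apply, LinearMap.add_apply, hM.cv.c1,
      zero_add]
  have d2 : ∀ (c : F) (v w z k : V (RatFunc F)),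
      M v (lg (RatFunc.C c) + w) z k = M v w z k := by
    intro c v w z k
    rw [map_add, LinearMap.add_apply, LinearMap.add_apply, hM.cv.c2, zero_add]
  have d3 : ∀ (c : F) (v w z k : V (RatFunc F)),
      M v w (lg (RatFunc.C c) + z) k = M v w z k := by
    intro c v w z k
    rw [map_add, LinearMap.add_apply, hM.cv.c3, zero_add]
  have e3 : ∀ k, Ψ (x2 a b 1) k = - M (E b) (E a - E b) (E a - E b) k := by
    intro k
    rw [hM.eq, cl1_x2_one hab, cl_x2 one_ne_zero, sub_eq_add_neg, d1, d2, d3]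
    simp only [map_neg, LinearMap.neg_apply]
  have e4 : ∀ k, Ψ (x2 a b ((p - b) / (p - a))) k =
      M (E p - E b) (E a - E b) (E a - E b) k := by
    intro k
    rw [hM.eq, cl1_x2 hab hpa, cl_x2 hc, d1, d2, d3]
  rw [h3, e1, e2, e3, e4]
  simp only [map_sub, map_add, LinearMap.sub_apply]
  ring

end

end Pool.Agent.Helper19.HV
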