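import Pool.Agent.Helper19.HV.XS

/-!
# Project HV (MP_bae8ce_ag), module Y3D
-/

set_option autoImplicit false

namespace Pool.Agent.Helper19.HV

noncomputable section

open PL

/-- Y3D. -/
theorem mY3D {F : Type} [Field F] {cV : V F →ₗ[ℚ] V (RatFunc F)}
    {lc : V (RatFunc F) →ₗ[ℚ] V F} {od : V (RatFunc F) →ₗ[ℚ] (F →₀ ℚ)} (hs : Spl cV lc od)
    (hEX2 : ∀ {N : Type} [AddCommGroup N] [Module ℚ N] (ψ : P1 (RatFunc F) → N), Kil 2 ψ →
      (∀ c, ψ (cst c) = 0) → ∃ A : V (RatFunc F) →ₗ[ℚ] V (RatFunc F) →ₗ[ℚ] N, Al2 A ∧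
        (∀ (c : F) v, A (lg (RatFunc.C c)) v = 0) ∧ ∀ x, ψ x = A (cl1 x) (cl x))
    (hSPN : ∀ T : V (RatFunc F) →ₗ[ℚ] V (RatFunc F) →ₗ[ℚ] V (RatFunc F) →ₗ[ℚ] ℚ,
      (∀ v w, T v v w = 0) → (∀ (c : F) v w, T (lg (RatFunc.C c)) v w = 0) →
      (∀ (c : F) v w, T v w (lg (RatFunc.C c)) = 0) →
      (∀ x : P1 (RatFunc F), T (cl1 x) (cl x) (cl x) = 0) → Al3 T)
    {L : P1 (RatFunc F) → (V (RatFunc F) →ₗ[ℚ] V (RatFunc F) →ₗ[ℚ] ℚ)} (hL : Ls L)
    (hcl : ∀ x k, L x (cl x) k = 0) (hu : ∀ x (u : F) k, L x (lg (RatFunc.C u)) k = 0)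
    (hc : ∀ c, L (cst c) = 0) :
    ∃ χ : F4 F, Al4 χ ∧
      (∀ (a b c : F) k, χ (lg (RatFunc.C a)) (lg (RatFunc.C b)) (lg (RatFunc.C c)) k = 0) ∧
      ∀ x k l, L x k l = χ (cl1 x) (cl x) k l := by
  obtain ⟨A, hA2, hAc, hAL⟩ := hEX2 L hL.kil hc
  obtain ⟨P, hP⟩ : ∃ P : V (RatFunc F) →ₗ[ℚ] V (RatFunc F),
      P = Finsupp.linearCombination ℚ E ∘ₗ od := ⟨_, rfl⟩
  have hPC : ∀ c : F, P (lg (RatFunc.C c)) = 0 := by
    intro c
    rw [hP, LinearMap.comp_apply, hs.od_C, map_zero]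
  have hdec : ∀ v, v = cV (lc v) + P v := by
    intro v
    rw [hP]
    exact hs.dec v
  -- constants vanish
  have hcV : ∀ (f : V (RatFunc F) →ₗ[ℚ] (V (RatFunc F) →ₗ[ℚ] ℚ)),
      (∀ u : F, f (lg (RatFunc.C u)) = 0) → ∀ v, f (cV v) = 0 := by
    intro f hf v
    have h : f ∘ₗ cV = 0 := by
      apply LinearMap.ext_on (span_lg (F := F))
      rintro _ ⟨c, rfl⟩
      rw [LinearMap.comp_apply, hs.cV_lg, hf, LinearMap.zero_apply]
    exact LinearMap.congr_fun h v
  have hLa : ∀ x k l, L x k l = - L x l k := by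
    intro x k l
    have h := hL.alt x (k + l)
    have h1 := hL.alt x k
    have h2 := hL.alt x l
    simp only [map_add, LinearMap.add_apply, h1, h2] at h
    linear_combination h
  have hL1 : ∀ x k l, L x (P k) l = L x k l := by
    intro x k l
    have h := hcV (L x) (fun u => LinearMap.ext (hu x u)) (lc k)
    conv_rhs => rw [hdec k, map_add, h, zero_add]
  have hL2 : ∀ x k l, L x (P k) (P l) = L x k l := by
    intro x k l
    rw [hL1, hLa, hL1, ← hLa]
  have hAa : ∀ a b, A a b = - A b a := by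
    intro a b
    have h := hA2 (a + b)
    have h1 := hA2 a
    have h2 := hA2 b
    simp only [map_add, LinearMap.add_apply, h1, h2, zero_add, add_zero] at h
    exact eq_neg_of_add_eq_zero_right h
  obtain ⟨χ, hχ⟩ := mk4 (fun a b k l : V (RatFunc F) =>
      (1 / 2 : ℚ) * (A a b (P k) (P l) - A a b (P l) (P k)))
    (fun _ _ _ => ⟨fun _ _ => by simp only [map_add, LinearMap.add_apply]; ring,
      fun _ _ => by simp only [map_smul, LinearMap.smul_apply, smul_eq_mul]; ring⟩)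
    (fun _ _ _ => ⟨fun _ _ => by simp only [map_add, LinearMap.add_apply]; ring,
      fun _ _ => by simp only [map_smul, LinearMap.smul_apply, smul_eq_mul]; ring⟩)
    (fun _ _ _ => ⟨fun _ _ => by simp only [map_add, LinearMap.add_apply]; ring,
      fun _ _ => by simp only [map_smul, LinearMap.smul_apply, smul_eq_mul]; ring⟩)
    (fun _ _ _ => ⟨fun _ _ => by simp only [map_add, LinearMap.add_apply]; ring,
      fun _ _ => by simp only [map_smul, LinearMap.smul_apply, smul_eq_mul]; ring⟩)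
  have e1 : ∀ v k l, χ v v k l = 0 := by
    intro v k l
    rw [hχ, hA2 v]
    simp
  have e4 : ∀ a b k, χ a b k k = 0 := by
    intro a b k
    rw [hχ, sub_self, mul_zero]
  have c1 : ∀ (c : F) b k l, χ (lg (RatFunc.C c)) b k l = 0 := by
    intro c b k l
    rw [hχ, hAc c b]
    simp
  have c3 : ∀ (c : F) a b l, χ a b (lg (RatFunc.C c)) l = 0 := by
    intro c a b l
    rw [hχ, hPC c]
    simp
  have hLχ : ∀ x k l, L x k l = χ (cl1 x) (cl x) k l := by
    intro x k l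
    rw [hχ, ← hAL x, hL2, hL2, hLa x l k]
    ring
  refine ⟨χ, ⟨fun v w z => e1 v w z, ?_, e4⟩, fun a b c k => c1 a _ _ k, hLχ⟩
  intro v w z
  obtain ⟨T, hT⟩ := mk3 (fun a b k : V (RatFunc F) => χ a b k z)
    (fun _ _ => ⟨fun _ _ => by simp only [map_add, LinearMap.add_apply],
      fun _ _ => by simp only [map_smul, LinearMap.smul_apply]⟩)
    (fun _ _ => ⟨fun _ _ => by simp only [map_add, LinearMap.add_apply],
      fun _ _ => by simp only [map_smul, LinearMap.smul_apply]⟩)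
    (fun _ _ => ⟨fun _ _ => by simp only [map_add, LinearMap.add_apply],
      fun _ _ => by simp only [map_smul, LinearMap.smul_apply]⟩)
  have h := (hSPN T (fun a k => by rw [hT]; exact e1 a k z)
    (fun c a k => by rw [hT]; exact c1 c a k z) (fun c a b => by rw [hT]; exact c3 c a b z)
    (fun x => by rw [hT, ← hLχ, hcl])).2 v w
  rw [hT] at h
  exact h

end

end Pool.Agent.Helper19.HV
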