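import Pool.Agent.Helper19.HV.XS

/-!
# Project HV (MP_bae8ce_ag), module Y4
-/

set_option autoImplicit false

namespace Pool.Agent.Helper19.HV

noncomputable section

open PL

private theorem y4_lin {F : Type} [Field F] {cV : V F →ₗ[ℚ] V (RatFunc F)}
    {lc : V (RatFunc F) →ₗ[ℚ] V F} {od : V (RatFunc F) →ₗ[ℚ] (F →₀ ℚ)} (hs : Spl cV lc od)
    {N : Type} [AddCommGroup N] [Module ℚ N] (f : V (RatFunc F) →ₗ[ℚ] N)
    (h1 : ∀ c : F, f (lg (RatFunc.C c)) = 0) (h2 : ∀ a : F, f (E a) = 0) : f = 0 := by
  have h3 : f ∘ₗ cV = 0 := by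
    apply LinearMap.ext_on (span_lg (F := F))
    rintro _ ⟨c, rfl⟩
    rw [LinearMap.comp_apply, hs.cV_lg, h1, LinearMap.zero_apply]
  apply LinearMap.ext
  intro v
  rw [hs.dec v, map_add, Finsupp.linearCombination_apply, map_finsuppSum]
  have h4 : f (cV (lc v)) = 0 := LinearMap.congr_fun h3 (lc v)
  rw [h4, zero_add, LinearMap.zero_apply]
  apply Finset.sum_eq_zero
  intro a _
  change f (od v a • E a) = 0
  rw [map_smul, h2, smul_zero]

/-- Y4. -/
theorem mY4 {F : Type} [Field F] {cV : V F →ₗ[ℚ] V (RatFunc F)}
    {lc : V (RatFunc F) →ₗ[ℚ] V F} {od : V (RatFunc F) →ₗ[ℚ] (F →₀ ℚ)} (hs : Spl cV lc od)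
    (χ : F4 F) (h4 : Al4 χ)
    (h3 : ∀ (a b c : F) k, χ (lg (RatFunc.C a)) (lg (RatFunc.C b)) (lg (RatFunc.C c)) k = 0)
    (hx : ∀ x k l, χ (cl1 x) (cl x) k l = 0) : χ = 0 := by
  obtain ⟨a1, a2, a3⟩ := h4
  have s12 : ∀ a b c d, χ a b c d = - χ b a c d := by
    intro a b c d
    have h := a1 (a + b) c d
    simp only [map_add, LinearMap.add_apply, a1] at h
    linear_combination h
  have s23 : ∀ a b c d, χ a b c d = - χ a c b d := by
    intro a b c d
    have h := a2 a (b + c) d
    simp only [map_add, LinearMap.add_apply, a2] at h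
    linear_combination h
  have s34 : ∀ a b c d, χ a b c d = - χ a b d c := by
    intro a b c d
    have h := a3 a b (c + d)
    simp only [map_add, LinearMap.add_apply, a3] at h
    linear_combination h
  -- the relation of a function of degree one
  have key : ∀ (p a : F) (k l : V (RatFunc F)), (∀ g : F, χ (E p) (lg (RatFunc.C g)) k l = 0) →
      (∀ g : F, χ (lg (RatFunc.C g)) (E a) k l = 0) → χ (E p) (E a) k l = 0 := by
    intro p a k l e1 e2
    by_cases hpa : p = a
    · rw [hpa]
      exact a1 _ _ _
    · have h := hx (x1 a p) k l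
      rw [cl1_x1 hpa, cl_x1 hpa] at h
      simp only [map_sub, LinearMap.sub_apply, a1] at h
      have e3 := e1 (p - a)
      have e4 := e2 (p - a)
      rw [map_sub] at e3 e4
      linear_combination h + e3 + e4
  have hB : ∀ u v : F, χ (lg (RatFunc.C u)) (lg (RatFunc.C v)) = 0 := by
    intro u v
    apply y4_lin hs
    · intro c
      apply LinearMap.ext
      intro k
      exact h3 u v c k
    · intro p
      apply y4_lin hs
      · intro c
        rw [s34, h3, neg_zero]
      · intro a
        rw [s23, s12, s34, s23]
        rw [key p a]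
        · simp
        · intro g
          rw [s12, s23, s34, h3]
          simp
        · intro g
          rw [s23, s34, h3]
          simp
  have hC : ∀ u : F, χ (lg (RatFunc.C u)) = 0 := by
    intro u
    apply y4_lin hs
    · exact hB u
    · intro p
      apply y4_lin hs
      · intro c
        apply LinearMap.ext
        intro k
        rw [s23, hB]
        simp
      · intro a
        apply LinearMap.ext
        intro k
        rw [s12, s23, key p a]
        · simp
        · intro g
          rw [s12, s23, hB]
          simp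
        · intro g
          rw [s23, hB]
          simp
  refine y4_lin hs (N := V (RatFunc F) →ₗ[ℚ] V (RatFunc F) →ₗ[ℚ] V (RatFunc F) →ₗ[ℚ] ℚ) χ ?_ ?_
  · exact hC
  · intro p
    apply y4_lin hs
    · intro c
      apply LinearMap.ext
      intro k
      apply LinearMap.ext
      intro l
      rw [s12, hC]
      simp
    · intro a
      apply LinearMap.ext
      intro k
      apply LinearMap.ext
      intro l
      rw [key p a]
      · simp
      · intro g
        rw [s12, hC]
        simp
      · intro g
        rw [hC]
        simp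

end

end Pool.Agent.Helper19.HV
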